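import Pool.Agent.W622.ETC.Stm

set_option autoImplicit false

/-! MP_d26ff6_al, part SIX: the case `n = 6`. -/

namespace Pool.Agent.W431.ELT

open Module Pool.Agent.W622 Pool.Agent.W622.ETC

section gen

variable {M : Type*} [AddCommGroup M] [Module (ZMod 2) M] [Finite M]

theorem span_pair_eq {K : Submodule (ZMod 2) M} (hK : finrank (ZMod 2) K = 2) {x y : M}
    (hx : x ∈ K) (hy : y ∈ K) (hx0 : x ≠ 0) (hy0 : y ≠ 0) (hxy : x ≠ y) :
    K = Submodule.span (ZMod 2) {x, y} := by
  have hli : LinearIndependent (ZMod 2) ![x, y] := by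
    rw [LinearIndependent.pair_iff]
    intro s t hst
    rcases z01 s with rfl | rfl <;> rcases z01 t with rfl | rfl
    · exact ⟨rfl, rfl⟩
    · simp at hst; exact absurd hst hy0
    · simp at hst; exact absurd hst hx0
    · simp at hst
      exact absurd (ETC.add_eq_zero'.mp hst) hxy
  have h1 := finrank_span_eq_card hli
  have h2 : Set.range ![x, y] = {x, y} := by
    simp [Matrix.range_cons, Matrix.range_empty, Set.pair_comm]
  rw [h2] at h1
  symm
  apply Submodule.eq_of_le_of_finrank_eq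
  · rw [Submodule.span_le]
    rintro z (rfl | rfl)
    · exact hx
    · exact hy
  · rw [h1, hK]; simp

theorem exists_pair {K : Submodule (ZMod 2) M} (hK : finrank (ZMod 2) K = 2) :
    ∃ x y : M, x ≠ 0 ∧ y ≠ 0 ∧ x ≠ y ∧ ∀ w, w ∈ K ↔ w = 0 ∨ w = x ∨ w = y ∨ w = x + y := by
  have h1 : K ≠ ⊥ := by
    rintro rfl
    simp at hK
  obtain ⟨x, hx, hx0⟩ := Submodule.exists_mem_ne_zero_of_ne_bot h1
  have h2 : ∃ y ∈ K, y ≠ 0 ∧ x ≠ y := by
    by_contra hc
    push Not at hc
    have h3 : K ≤ Submodule.span (ZMod 2) {x} := by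
      intro z hz
      rw [span_one_mem]
      by_cases hz0 : z = 0
      · exact Or.inl hz0
      · exact Or.inr (hc z hz hz0).symm
    have h4 := Submodule.finrank_mono h3
    rw [hK, finrank_span_singleton hx0] at h4
    omega
  obtain ⟨y, hy, hy0, hxy⟩ := h2
  refine ⟨x, y, hx0, hy0, hxy, fun w => ?_⟩
  rw [span_pair_eq hK hx hy hx0 hy0 hxy, span_pair_mem]

theorem natCard_sub (K : Submodule (ZMod 2) M) : Nat.card K = 2 ^ finrank (ZMod 2) K := by
  rw [Module.natCard_eq_pow_finrank (K := ZMod 2), Nat.card_eq_fintype_card, ZMod.card]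

end gen

section

variable {V : Type} [AddCommGroup V] [Module (ZMod 2) V] [Finite V]

open Classical in
/-- fibres of a form of corank 2 -/
theorem fibre {η : Frm V} [Fintype V] (hk : finrank (ZMod 2) (LinearMap.ker η) = 2) {v : V}
    {h : Dl V} (hv : η v = h) :
    (Finset.univ.filter (fun w => η w = h)).card = 4 ∧
      ∑ w ∈ Finset.univ.filter (fun w => η w = h), w = 0 := by
  obtain ⟨x, y, hx, hy, hxy, hK⟩ := exists_pair hk
  have hset : Finset.univ.filter (fun w => η w = h) = {v, v + x, v + y, v + (x + y)} := by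
    ext w
    simp only [Finset.mem_filter, Finset.mem_univ, true_and, Finset.mem_insert,
      Finset.mem_singleton]
    have h1 : η w = h ↔ v + w ∈ LinearMap.ker η := by
      rw [LinearMap.mem_ker, map_add, hv, ETC.add_eq_zero', eq_comm]
    rw [h1, hK]
    have h2 : ∀ z : V, v + w = z ↔ w = v + z := by
      intro z
      constructor
      · intro h; rw [← h, add_cancel_left']
      · intro h; rw [h, add_cancel_left']
    rw [h2, h2, h2, h2, add_zero]
  have hxy' : x + y ≠ 0 := fun h => hxy (ETC.add_eq_zero'.mp h)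
  have e1 : v ≠ v + x := by simpa using hx
  have e2 : v ≠ v + y := by simpa using hy
  have e3 : v ≠ v + (x + y) := by simpa using hxy'
  have e4 : v + x ≠ v + y := by simpa using hxy
  have e5 : v + x ≠ v + (x + y) := by simpa using hy
  have e6 : v + y ≠ v + (x + y) := by simpa using hx
  rw [hset]
  constructor
  · rw [Finset.card_insert_of_notMem, Finset.card_insert_of_notMem, Finset.card_insert_of_notMem,
      Finset.card_singleton]
    · simpa using e6
    · simpa using ⟨hxy, hy⟩
    · simpa using ⟨hx, hy, hxy'⟩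
  · rw [Finset.sum_insert, Finset.sum_insert, Finset.sum_insert, Finset.sum_singleton]
    · have : v + (v + x + (v + y + (v + (x + y)))) = (v + v) + (v + v) + (x + x) + (y + y) := by
        abel
      rw [this, vadd v, vadd x, vadd y, add_zero, add_zero, add_zero]
    · simpa using e6
    · simpa using ⟨hxy, hy⟩
    · simpa using ⟨hx, hy, hxy'⟩

/-- different members with kernels of order 4 and a common kernel element -/
theorem rank4_unique (hIDIM : S_IDIM) (hCB1 : S_CB1) (hOM : S_OM) {A : Fam V} (hcb : CB A)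
    (hn : finrank (ZMod 2) V = 6) {b : V} (hb : b ≠ 0) :
    Nat.card (res A (ann b)) ≤ 4 ∧ ∀ η ∈ A, ∀ η' ∈ A, η b = 0 → η' b = 0 →
      finrank (ZMod 2) (sp η) = 4 → finrank (ZMod 2) (sp η') = 4 → η = η' := by
  classical
  have halt := hcb.mc.alt
  have hloc : ∀ X, Block A X → LocBlock A X := by
    intro X hX
    rcases hX with h | h
    · exact absurd h.1 (hcb.nc X)
    · exact h
  obtain ⟨hC, hcard, hdim⟩ := hCB1 V A b hcb hb
  rw [hn] at hdim
  have hfin : (BL A b).Finite := Set.toFinite _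
  set s := hfin.toFinset with hs
  have hsc : (s : Set (DSub V)) = BL A b := hfin.coe_toFinset
  have hnc : (BL A b).ncard = s.card := by rw [← hsc, Set.ncard_coe_finset]
  have hsum : finrank (ZMod 2) (sSup (BL A b) : DSub V) = ∑ X ∈ s, finrank (ZMod 2) X := by
    have := hIDIM V s (by rw [hsc]; exact hC.1)
    rwa [hsc] at this
  have hmem : ∀ X ∈ s, Block A X ∧ X ≤ ann b := by
    intro X hX
    have : X ∈ BL A b := by rw [← hsc]; exact hX
    exact this
  have h2 : ∀ X ∈ s, 2 ≤ finrank (ZMod 2) X := by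
    intro X hX
    exact (hOM V A X halt (hloc X (hmem X hX).1)).2.2.2.2.2
  have h3 : s.card * 2 ≤ ∑ X ∈ s, finrank (ZMod 2) X := by
    have := Finset.card_nsmul_le_sum s (fun X => finrank (ZMod 2) X) 2 h2
    simpa using this
  have h4 : s.card ≤ 2 := by omega
  have hNc : Nat.card (res A (ann b)) = 2 ^ s.card := by
    rw [← hnc, ← hcard]
    exact natCard_sub (M := Frm V) (res A (ann b))
  refine ⟨?_, ?_⟩
  · rw [hNc]
    calc 2 ^ s.card ≤ 2 ^ 2 := Nat.pow_le_pow_right (by norm_num) h4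
      _ = 4 := by norm_num
  · intro η hη η' hη' hb1 hb2 hr1 hr2
    by_contra hne
    have hm1 : η ∈ res A (ann b) := (mem_res_ann halt).mpr ⟨hη, hb1⟩
    have hm2 : η' ∈ res A (ann b) := (mem_res_ann halt).mpr ⟨hη', hb2⟩
    have hz1 : η ≠ 0 := by rintro rfl; rw [sp_zero] at hr1; simp at hr1
    have hz2 : η' ≠ 0 := by rintro rfl; rw [sp_zero] at hr2; simp at hr2
    have hbound : ∀ T : Finset (Frm V), (∀ ω ∈ T, ω ∈ res A (ann b)) → T.card ≤ 2 ^ s.card := by
      intro T hT
      rw [← hNc]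
      have h5 : T.card = Nat.card (T : Set (Frm V)) := by simp
      rw [h5]
      exact Nat.card_mono (Set.toFinite _) (fun ω hω => hT ω hω)
    have hle1 := hbound {0, η, η'} (by
      intro ω hω
      simp only [Finset.mem_insert, Finset.mem_singleton] at hω
      rcases hω with rfl | rfl | rfl
      · exact Submodule.zero_mem _
      · exact hm1
      · exact hm2)
    have hc3 : ({0, η, η'} : Finset (Frm V)).card = 3 := by
      rw [Finset.card_insert_of_notMem, Finset.card_insert_of_notMem, Finset.card_singleton]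
      · simpa using hne
      · simp only [Finset.mem_insert, Finset.mem_singleton, not_or]
        exact ⟨hz1.symm, hz2.symm⟩
    rw [hc3] at hle1
    have h6 : s.card = 2 := by
      interval_cases h : s.card
      · simp at hle1
      · simp at hle1
      · rfl
    obtain ⟨F1, F2, hF12, hsF⟩ := Finset.card_eq_two.mp h6
    have hF1 : F1 ∈ s := by rw [hsF]; simp
    have hF2 : F2 ∈ s := by rw [hsF]; simp
    have hd1 := h2 F1 hF1
    have hd2 := h2 F2 hF2
    have hd : finrank (ZMod 2) F1 + finrank (ZMod 2) F2 ≤ 4 := by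
      have : ∑ X ∈ s, finrank (ZMod 2) X = finrank (ZMod 2) F1 + finrank (ZMod 2) F2 := by
        rw [hsF, Finset.sum_pair hF12]
      omega
    obtain ⟨o1, o2, o3, -, -, -⟩ := hOM V A F1 halt (hloc F1 (hmem F1 hF1).1)
    obtain ⟨p1, p2, p3, -, -, -⟩ := hOM V A F2 halt (hloc F2 (hmem F2 hF2).1)
    have hw1 : om A F1 ∈ res A (ann b) := mem_res'.mpr ⟨o1, by rw [o3]; exact (hmem F1 hF1).2⟩
    have hw2 : om A F2 ∈ res A (ann b) := mem_res'.mpr ⟨p1, by rw [p3]; exact (hmem F2 hF2).2⟩
    have q1 : om A F1 ≠ om A F2 := by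
      intro h; apply hF12; rw [← o3, ← p3, h]
    have q2 : om A F1 ≠ η := by
      intro h; rw [← h, o3] at hr1; omega
    have q3 : om A F1 ≠ η' := by
      intro h; rw [← h, o3] at hr2; omega
    have q4 : om A F2 ≠ η := by
      intro h; rw [← h, p3] at hr1; omega
    have q5 : om A F2 ≠ η' := by
      intro h; rw [← h, p3] at hr2; omega
    have hle2 := hbound {0, om A F1, om A F2, η, η'} (by
      intro ω hω
      simp only [Finset.mem_insert, Finset.mem_singleton] at hω
      rcases hω with rfl | rfl | rfl | rfl | rfl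
      · exact Submodule.zero_mem _
      · exact hw1
      · exact hw2
      · exact hm1
      · exact hm2)
    have hc5 : ({0, om A F1, om A F2, η, η'} : Finset (Frm V)).card = 5 := by
      rw [Finset.card_insert_of_notMem, Finset.card_insert_of_notMem,
        Finset.card_insert_of_notMem, Finset.card_insert_of_notMem, Finset.card_singleton]
      · simpa using hne
      · simp only [Finset.mem_insert, Finset.mem_singleton, not_or]
        exact ⟨q4, q5⟩
      · simp only [Finset.mem_insert, Finset.mem_singleton, not_or]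
        exact ⟨q1, q2, q3⟩
      · simp only [Finset.mem_insert, Finset.mem_singleton, not_or]
        exact ⟨o2.symm, p2.symm, hz1.symm, hz2.symm⟩
    rw [hc5, h6] at hle2
    omega

/-- alternating forms of rank 2 with the same support -/
theorem rank2_eq {η η' : Frm V} (hη : Alt η) (hη' : Alt η')
    (hr : finrank (ZMod 2) (sp η) = 2) (h : sp η' = sp η) : η' = η := by
  by_contra hne
  have hex : ∃ c, η' c ≠ η c := by
    by_contra hc
    push Not at hc
    exact hne (LinearMap.ext hc)
  obtain ⟨c, hc⟩ := hex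
  have hk : η c ≠ 0 := by
    intro h0
    have h1 := hη.ker_iff_ann.mp h0
    rw [← h] at h1
    have h2 := hη'.ker_iff_ann.mpr h1
    exact hc (h2.trans h0.symm)
  have hk' : η' c ≠ 0 := by
    intro h0
    have h1 := hη'.ker_iff_ann.mp h0
    rw [h] at h1
    exact hk (hη.ker_iff_ann.mpr h1)
  have hsp := span_pair_eq hr (x := η' c) (y := η c) (by rw [← h]; exact ⟨c, rfl⟩) ⟨c, rfl⟩
    hk' hk hc
  apply hk
  rw [hη.ker_iff_ann, hsp, Submodule.span_le]
  rintro z (rfl | rfl)
  · exact hη' c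
  · exact hη c

theorem t_SIX (hEVEN : S_EVEN) (hIDIM : S_IDIM) (hCB1 : S_CB1) (hOM : S_OM) : S_SIX := by
  intro V _ _ _ A ζ₀ ζ₁ v₀ a h hcb hn hζ₀ hζ₁ hr0 h0 h1 hne hh hblk
  classical
  letI : Fintype V := Fintype.ofFinite V
  letI : Fintype (Frm V) := Fintype.ofFinite _
  have halt := hcb.mc.alt
  have hlink : Linked A := hcb.mc.her.linked
  -- rank 2 members
  have hE : ∀ η ∈ A, h ∈ sp η → finrank (ZMod 2) (sp η) ≠ 2 := by
    intro η hη hm hr
    refine hblk (sp η) (Or.inr ⟨η, ⟨hη, ?_, ?_⟩, rfl, fun Z hZ => absurd hZ (hcb.nc Z)⟩) hr hm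
    · rintro rfl; rw [sp_zero] at hr; simp at hr
    · intro η' hη' hle
      have h2 := Submodule.finrank_mono hle
      rw [hr] at h2
      obtain ⟨k, hk⟩ := hEVEN V η' (halt η' hη')
      have h3 : k = 0 ∨ k = 1 := by omega
      rcases h3 with rfl | rfl
      · left
        have h4 : finrank (ZMod 2) (sp η') = 0 := by omega
        exact sp_eq_bot.mp (Submodule.finrank_eq_zero.mp h4)
      · right
        exact rank2_eq (halt η hη) (halt η' hη') hr
          (Submodule.eq_of_le_of_finrank_eq hle (by omega))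
  -- members with a kernel and the value `h`
  have hF : ∀ η ∈ A, h ∈ sp η → (∃ b, b ≠ 0 ∧ η b = 0) →
      finrank (ZMod 2) (sp η) = 4 ∧ finrank (ZMod 2) (LinearMap.ker η) = 2 := by
    rintro η hη hm ⟨b, hb, hηb⟩
    have h2 := finrank_sp_add_ker η
    rw [hn] at h2
    have h3 : finrank (ZMod 2) (LinearMap.ker η) ≠ 0 := by
      intro h4
      have h5 := Submodule.finrank_eq_zero.mp h4
      have h6 : b ∈ LinearMap.ker η := hηb
      rw [h5, Submodule.mem_bot] at h6
      exact hb h6
    have h4 : finrank (ZMod 2) (sp η) ≠ 0 := by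
      intro h4
      have h5 := Submodule.finrank_eq_zero.mp h4
      rw [h5, Submodule.mem_bot] at hm
      exact hh hm
    have h5 := hE η hη hm
    obtain ⟨k, hk⟩ := hEVEN V η (halt η hη)
    omega
  have hU := fun (b : V) (hb : b ≠ 0) => rank4_unique hIDIM hCB1 hOM hcb hn hb
  let Γ : Finset V := Finset.univ.filter (fun v => ∃ ω ∈ A, ω v = h)
  let Z : V → Finset (Frm V) := fun v =>
    Finset.univ.filter (fun η => η ∈ A ∧ η v = h ∧ ∃ b, b ≠ 0 ∧ η b = 0)
  have hΓ : ∀ v, v ∈ Γ ↔ ∃ ω ∈ A, ω v = h := by intro v; simp [Γ]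
  have hZ : ∀ v η, η ∈ Z v ↔ η ∈ A ∧ η v = h ∧ ∃ b, b ≠ 0 ∧ η b = 0 := by intro v; simp [Z]
  have hΓ0 : ∀ v ∈ Γ, v ≠ 0 := by
    rintro v hv rfl
    obtain ⟨ω, -, hω⟩ := (hΓ 0).mp hv
    rw [map_zero] at hω
    exact hh hω.symm
  have hpair : ∀ v ∈ Γ, ∀ w ∈ Γ, v ≠ w → ∃ η ∈ Z v, η w = h := by
    intro v hv w hw hvw
    obtain ⟨ω, hω, hωv⟩ := (hΓ v).mp hv
    obtain ⟨ω', hω', hωw⟩ := (hΓ w).mp hw
    obtain ⟨ζ, hζ, e1, e2⟩ := hlink ω hω ω' hω' v w (by rw [hωv, hωw])
    rw [hωv] at e1 e2
    refine ⟨ζ, (hZ v ζ).mpr ⟨hζ, e1, v + w, ?_, ?_⟩, e2⟩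
    · intro h2; exact hvw (ETC.add_eq_zero'.mp h2)
    · rw [map_add, e1, e2, vadd]
  have hT : ∀ v ∈ Γ, (Γ.erase v).card = 3 * (Z v).card ∧ ∑ w ∈ Γ.erase v, w = (Z v).card • v := by
    intro v hv
    have hun : Γ.erase v = (Z v).biUnion
        (fun η => (Finset.univ.filter (fun w => η w = h)).erase v) := by
      ext w
      simp only [Finset.mem_erase, Finset.mem_biUnion, Finset.mem_filter, Finset.mem_univ,
        true_and]
      constructor
      · rintro ⟨hwv, hw⟩
        obtain ⟨η, hη, hηw⟩ := hpair v hv w hw hwv.symm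
        exact ⟨η, hη, hwv, hηw⟩
      · rintro ⟨η, hη, hwv, hηw⟩
        exact ⟨hwv, (hΓ w).mpr ⟨η, ((hZ v η).mp hη).1, hηw⟩⟩
    have hdis : ∀ η ∈ Z v, ∀ η' ∈ Z v, η ≠ η' →
        Disjoint ((Finset.univ.filter (fun w => η w = h)).erase v)
          ((Finset.univ.filter (fun w => η' w = h)).erase v) := by
      intro η hη η' hη' hne'
      rw [Finset.disjoint_left]
      intro w hw hw'
      simp only [Finset.mem_erase, Finset.mem_filter, Finset.mem_univ, true_and] at hw hw'
      obtain ⟨m1, m2, m3⟩ := (hZ v η).mp hη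
      obtain ⟨n1, n2, n3⟩ := (hZ v η').mp hη'
      apply hne'
      refine (hU (v + w) ?_).2 η m1 η' n1 ?_ ?_ (hF η m1 ⟨v, m2⟩ m3).1 (hF η' n1 ⟨v, n2⟩ n3).1
      · intro h2; exact hw.1 (ETC.add_eq_zero'.mp h2).symm
      · rw [map_add, m2, hw.2, vadd]
      · rw [map_add, n2, hw'.2, vadd]
    have hfib : ∀ η ∈ Z v, ((Finset.univ.filter (fun w => η w = h)).erase v).card = 3 ∧
        ∑ w ∈ (Finset.univ.filter (fun w => η w = h)).erase v, w = v := by
      intro η hη
      obtain ⟨m1, m2, m3⟩ := (hZ v η).mp hη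
      obtain ⟨f1, f2⟩ := fibre (hF η m1 ⟨v, m2⟩ m3).2 m2
      have hvm : v ∈ Finset.univ.filter (fun w => η w = h) := by simpa using m2
      constructor
      · rw [Finset.card_erase_of_mem hvm, f1]
      · have h2 := Finset.add_sum_erase _ (fun w : V => w) hvm
        rw [f2] at h2
        exact (ETC.add_eq_zero'.mp h2).symm
    rw [hun]
    constructor
    · rw [Finset.card_biUnion (fun η hη η' hη' hne' => hdis η hη η' hη' hne'),
        Finset.sum_congr rfl (fun η hη => (hfib η hη).1), Finset.sum_const, smul_eq_mul, mul_comm]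
    · rw [Finset.sum_biUnion (fun η hη η' hη' hne' => hdis η hη η' hη' hne'),
        Finset.sum_congr rfl (fun η hη => (hfib η hη).2), Finset.sum_const]
  have hZ4 : ∀ v ∈ Γ, (Z v).card ≤ 4 := by
    intro v hv
    rcases (Z v).eq_empty_or_nonempty with h2 | ⟨η₀, hη₀⟩
    · rw [h2]; simp
    · obtain ⟨m1, m2, m3⟩ := (hZ v η₀).mp hη₀
      have h3 : (Z v).card ≤ (Finset.univ.filter (fun ω => ω ∈ res A (ann v))).card := by
        refine Finset.card_le_card_of_injOn (fun η => η + η₀) ?_ ?_
        · intro η hη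
          obtain ⟨n1, n2, n3⟩ := (hZ v η).mp hη
          simp only [Finset.coe_filter, Finset.mem_univ, true_and, Set.mem_ofPred_eq]
          refine (mem_res_ann halt).mpr ⟨A.add_mem n1 m1, ?_⟩
          rw [LinearMap.add_apply, n2, m2, vadd]
        · intro η _ η' _ heq
          refine LinearMap.ext fun w => ?_
          have h5 : (η + η₀) w = (η' + η₀) w := congrArg (fun L : Frm V => L w) heq
          rw [LinearMap.add_apply, LinearMap.add_apply] at h5
          exact add_right_cancel h5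
      refine h3.trans ?_
      refine le_trans (le_of_eq ?_) (hU v (hΓ0 v hv)).1
      rw [Nat.card_eq_fintype_card, Fintype.card_subtype]
  have haΓ : a ∈ Γ := (hΓ a).mpr ⟨ζ₁, hζ₁, h1⟩
  have hvΓ : v₀ ∈ Γ := (hΓ v₀).mpr ⟨ζ₀, hζ₀, h0⟩
  have hva : v₀ ≠ a := by rintro rfl; exact hne h0
  have hk0 : finrank (ZMod 2) (LinearMap.ker ζ₀) = 2 := by
    have := finrank_sp_add_ker ζ₀
    omega
  have hZa : (Z a).card = 4 := by
    refine le_antisymm (hZ4 a haΓ) ?_
    have hch : ∀ w, ζ₀ w = h → ∃ η ∈ Z a, η w = h := by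
      intro w hw
      refine hpair a haΓ w ((hΓ w).mpr ⟨ζ₀, hζ₀, hw⟩) ?_
      rintro rfl
      exact hne hw
    choose! g hg1 hg2 using hch
    have h2 := (fibre hk0 h0).1
    rw [← h2]
    refine Finset.card_le_card_of_injOn g ?_ ?_
    · intro w hw
      simp only [Finset.coe_filter, Finset.mem_univ, true_and, Set.mem_ofPred_eq] at hw
      exact hg1 w hw
    · intro w hw w' hw' heq
      simp only [Finset.coe_filter, Finset.mem_univ, true_and, Set.mem_ofPred_eq] at hw hw'
      by_contra hww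
      obtain ⟨m1, m2, m3⟩ := (hZ a (g w)).mp (hg1 w hw)
      have hrg := (hF (g w) m1 ⟨a, m2⟩ m3).1
      have h3 : g w = ζ₀ := by
        refine (hU (w + w') ?_).2 (g w) m1 ζ₀ hζ₀ ?_ ?_ hrg hr0
        · intro h4; exact hww (ETC.add_eq_zero'.mp h4)
        · rw [map_add, hg2 w hw]
          rw [heq, hg2 w' hw', vadd]
        · rw [map_add, hw, hw', vadd]
      rw [h3] at m2
      exact hne m2
  have hZv : (Z v₀).card = 4 := by
    have e1 := (hT a haΓ).1
    have e2 := (hT v₀ hvΓ).1
    rw [Finset.card_erase_of_mem haΓ] at e1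
    rw [Finset.card_erase_of_mem hvΓ] at e2
    omega
  have hfinal : ∀ v ∈ Γ, (Z v).card = 4 → ∑ w ∈ Γ, w = v := by
    intro v hv h4
    rw [← Finset.add_sum_erase _ (fun w : V => w) hv, (hT v hv).2, h4]
    have : (4 : ℕ) • v = (v + v) + (v + v) := by abel
    rw [this, vadd v, add_zero, add_zero]
  exact hva ((hfinal v₀ hvΓ hZv).symm.trans (hfinal a haΓ hZa))

end

end Pool.Agent.W431.ELT
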